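import Pool.Agent.H522R5.CC.Defs
import Pool.Agent.H599R2.Ram.ES

namespace Pool.Agent.H522R5.CC

open Finset

theorem b1_le_cl {V : Type} (G : SimpleGraph V) (W K : Finset V) (h : K ⊆ W)
    (hK : G.IsClique (K : Set V)) : K.card ≤ cl G W := by
  classical
  unfold cl
  exact Finset.le_sup (f := fun S : Finset V => S.card)
    (Finset.mem_filter.mpr ⟨Finset.mem_powerset.mpr h, hK⟩)

theorem b1_choose {V : Type} (G : SimpleGraph V) (U : Finset V) :
    U.card < (cl G U + cl Gᶜ U).choose (cl G U) := by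
  by_contra hcon
  rcases Pool.Agent.H599R2.Ram.es G _ (cl G U) (cl Gᶜ U) rfl U (not_lt.mp hcon) with
    ⟨S, hS, hc⟩ | ⟨S, hS, hc⟩
  · have := b1_le_cl G U S hS hc.isClique
    rw [hc.card_eq] at this
    omega
  · have hc2 : Gᶜ.IsClique (S : Set V) := by
      have := hc.isIndepSet
      simpa using this
    have := b1_le_cl Gᶜ U S hS hc2
    rw [hc.card_eq] at this
    omega

theorem b1_exp (a b e k : ℕ) (he : 1 ≤ e) (ha : a ≤ k) (hb : b ≤ k) :
    ((a + b).choose a : ℝ) ≤ 2 ^ ((e : ℝ) * a + 4 * k / 2 ^ e) := by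
  have hx : (0 : ℝ) < 1 / 2 ^ e := by positivity
  have h1 : ((a + b).choose a : ℝ) * (1 / 2 ^ e) ^ a ≤ (1 / 2 ^ e + 1) ^ (a + b) := by
    rw [add_pow]
    have hmem : a ∈ Finset.range (a + b + 1) := Finset.mem_range.mpr (by omega)
    have := Finset.single_le_sum (f := fun m => ((1 : ℝ) / 2 ^ e) ^ m * 1 ^ (a + b - m) *
      ((a + b).choose m : ℝ)) (fun i _ => by positivity) hmem
    refine le_trans (le_of_eq ?_) this
    simp [mul_comm]
  have h2 : ((1 : ℝ) / 2 ^ e + 1) ^ (a + b) ≤ 2 ^ ((4 : ℝ) * k / 2 ^ e) := by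
    have h3 : (1 : ℝ) / 2 ^ e + 1 ≤ 2 ^ ((2 : ℝ) / 2 ^ e) := by
      rw [Real.rpow_def_of_pos (by norm_num)]
      refine le_trans (Real.add_one_le_exp _) (Real.exp_le_exp.mpr ?_)
      have hlog : (1 : ℝ) / 2 ≤ Real.log 2 := by
        have := Real.log_two_gt_d9; linarith
      have h4 : Real.log 2 * (2 / 2 ^ e) = (2 * Real.log 2) / 2 ^ e := by ring
      rw [h4]
      exact div_le_div_of_nonneg_right (by linarith) (by positivity)
    calc ((1 : ℝ) / 2 ^ e + 1) ^ (a + b) ≤ (2 ^ ((2 : ℝ) / 2 ^ e)) ^ (a + b) :=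
          pow_le_pow_left₀ (by positivity) h3 _
      _ = 2 ^ (((2 : ℝ) / 2 ^ e) * ((a + b : ℕ) : ℝ)) := by
          rw [Real.rpow_mul (by norm_num), Real.rpow_natCast]
      _ ≤ 2 ^ ((4 : ℝ) * k / 2 ^ e) := by
          apply Real.rpow_le_rpow_of_exponent_le (by norm_num)
          have : ((a + b : ℕ) : ℝ) ≤ 2 * k := by
            have : a + b ≤ 2 * k := by omega
            exact_mod_cast this
          have h5 : (4 : ℝ) * k / 2 ^ e = 2 / 2 ^ e * (2 * k) := by ring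
          rw [h5]
          exact mul_le_mul_of_nonneg_left this (by positivity)
  have h3 := h1.trans h2
  have h4 : ((1 : ℝ) / 2 ^ e) ^ a = 2 ^ (-((e : ℝ) * a)) := by
    rw [Real.rpow_neg (by norm_num), Real.rpow_mul (by norm_num), Real.rpow_natCast,
      Real.rpow_natCast, one_div, inv_pow]
  rw [h4, Real.rpow_neg (by norm_num), ← div_eq_mul_inv, div_le_iff₀ (by positivity),
    ← Real.rpow_add (by norm_num), add_comm ((4 : ℝ) * k / 2 ^ e)] at h3
  exact h3

theorem B1 : S_B1 := by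
  intro V G U k e q he hU ha hb
  have h1 := b1_choose G U
  have h2 := b1_exp (cl G U) (cl Gᶜ U) e k he ha hb
  have h3 : (2 : ℝ) ^ (q : ℝ) < 2 ^ ((e : ℝ) * cl G U + 4 * k / 2 ^ e) := by
    rw [Real.rpow_natCast]
    refine lt_of_lt_of_le ?_ h2
    have : 2 ^ q < (cl G U + cl Gᶜ U).choose (cl G U) := lt_of_le_of_lt hU h1
    exact_mod_cast this
  have h4 : (q : ℝ) < (e : ℝ) * cl G U + 4 * k / 2 ^ e :=
    (Real.rpow_lt_rpow_left_iff (by norm_num)).mp h3
  have h5 : (2 : ℝ) ^ e * q ≤ 2 ^ e * (e * cl G U) + 4 * k := by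
    have hp : (0 : ℝ) < 2 ^ e := by positivity
    have := mul_lt_mul_of_pos_left h4 hp
    have h6 : (2 : ℝ) ^ e * ((e : ℝ) * cl G U + 4 * k / 2 ^ e) =
      2 ^ e * (e * cl G U) + 4 * k := by field_simp
    linarith
  exact_mod_cast h5

end Pool.Agent.H522R5.CC
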