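import Pool.Agent.H522R5.CC.Defs

/-! Task C1: one step of the recursion (from the trace argument T2). -/

namespace Pool.Agent.H522R5.CC

open Finset

theorem c1_le_cl {V : Type} (G : SimpleGraph V) (W K : Finset V) (h : K ⊆ W)
    (hK : G.IsClique (K : Set V)) : K.card ≤ cl G W := by
  classical
  unfold cl
  refine Finset.le_sup (f := fun S : Finset V => S.card) ?_
  rw [Finset.mem_filter, Finset.mem_powerset]
  exact ⟨h, hK⟩

theorem c1_cl_attained {V : Type} (G : SimpleGraph V) (W : Finset V) :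
    ∃ K ⊆ W, G.IsClique (K : Set V) ∧ K.card = cl G W := by
  classical
  have hne : (W.powerset.filter fun S : Finset V => G.IsClique (S : Set V)).Nonempty :=
    ⟨∅, by simp⟩
  obtain ⟨K, hK, hK2⟩ := Finset.exists_mem_eq_sup _ hne (fun S : Finset V => S.card)
  rw [Finset.mem_filter, Finset.mem_powerset] at hK
  refine ⟨K, hK.1, hK.2, ?_⟩
  unfold cl
  exact hK2.symm

theorem c1_cl_mono {V : Type} (G : SimpleGraph V) {A B : Finset V} (h : A ⊆ B) :
    cl G A ≤ cl G B := by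
  obtain ⟨K, hK, hK1, hK2⟩ := c1_cl_attained G A
  rw [← hK2]
  exact c1_le_cl G B K (hK.trans h) hK1

/-- initial segments -/
theorem c1_split {n : ℕ} (W : Finset (Fin n)) (m : ℕ) (hm : m ≤ W.card) :
    ∃ A ⊆ W, A.card = m ∧ ∀ x ∈ A, ∀ y ∈ W \ A, x < y := by
  induction m with
  | zero => exact ⟨∅, Finset.empty_subset _, rfl, by simp⟩
  | succ m ih =>
    obtain ⟨A, hA, hAc, hAl⟩ := ih (by omega)
    have hne : (W \ A).Nonempty := by
      rw [← Finset.card_pos, Finset.card_sdiff_of_subset hA]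
      omega
    set z := (W \ A).min' hne with hz
    have hz1 : z ∈ W \ A := Finset.min'_mem _ _
    rw [Finset.mem_sdiff] at hz1
    refine ⟨insert z A, ?_, ?_, ?_⟩
    · intro x hx
      rcases Finset.mem_insert.1 hx with rfl | hx
      · exact hz1.1
      · exact hA hx
    · rw [Finset.card_insert_of_notMem hz1.2, hAc]
    · intro x hx y hy
      rw [Finset.mem_sdiff, Finset.mem_insert, not_or] at hy
      have hy' : y ∈ W \ A := Finset.mem_sdiff.2 ⟨hy.1, hy.2.2⟩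
      rcases Finset.mem_insert.1 hx with rfl | hx
      · exact lt_of_le_of_ne (Finset.min'_le _ _ hy') (fun h => hy.2.1 h.symm)
      · exact hAl x hx y hy'

/-- the common part of both cases -/
theorem c1_core (hT2 : S_T2) {n : ℕ} (H : SimpleGraph (Fin n)) (d k E N : ℕ) (P0 : ℝ)
    (hd : 3 ≤ d) (hE : 4 * d * k ≤ E * 2 ^ d) (hcl : ∀ W : Finset (Fin n), cl H W ≤ k)
    (hrec : ∀ W : Finset (Fin n), N ≤ W.card → P0 ≤ (cl H W : ℝ) * cl Hᶜ W)
    (W A1 B1 : Finset (Fin n)) (hA : A1 ⊆ W) (hB : B1 ⊆ W) (hlt : ∀ x ∈ A1, ∀ y ∈ B1, x < y)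
    (hA1 : N * 2 ^ (E + 3) ≤ A1.card) (hB1 : N * 2 ^ (E + 3) ≤ B1.card)
    (hcnt : 2 ^ d * cnt (fun x y => ¬ H.Adj x y) A1 B1 ≤ A1.card * B1.card) :
    3 / 2 * P0 ≤ (cl H W : ℝ) * cl Hᶜ W := by
  classical
  obtain ⟨A2, hA2, hA2c, hA2p⟩ := hT2 (Fin n) H.Adj A1 B1 d k E hd hE hcnt
  obtain ⟨K, hK, hKc, hKcard⟩ := c1_cl_attained H A2
  obtain ⟨K', hK', B', hB', h1, h2, h3⟩ := hA2p K hK (by rw [hKcard]; exact hcl A2)
  obtain ⟨L, hL, hLc, hLcard⟩ := c1_cl_attained H B'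
  -- sizes
  have hpE : 1 ≤ 2 ^ E := Nat.one_le_two_pow
  have hNA : N ≤ A2.card := by
    have e : 2 ^ (E + 3) = 8 * 2 ^ E := by ring
    rw [e] at hA1
    nlinarith
  have hNB : N ≤ B'.card := by
    have e : N * 2 ^ (E + 3) = 2 ^ (E + 1) * (4 * N) := by ring
    rw [e] at hB1
    have h4 : 2 ^ (E + 1) * (4 * N) ≤ 2 ^ (E + 1) * B'.card := hB1.trans h2
    have h5 := Nat.le_of_mul_le_mul_left h4 (by positivity)
    omega
  -- |K| ≤ 2 |K'|
  have hKK : K.card ≤ 2 * K'.card := by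
    have h8 : 8 ≤ 2 ^ d := by
      calc 8 = 2 ^ 3 := by norm_num
        _ ≤ 2 ^ d := Nat.pow_le_pow_right (by norm_num) hd
    obtain ⟨t, ht⟩ := Nat.exists_eq_add_of_le h8
    rw [ht] at h1
    by_contra hcon
    push Not at hcon
    nlinarith
  -- the union
  have hdisj : Disjoint K' L := by
    rw [Finset.disjoint_left]
    intro x hx hx'
    exact absurd (hlt x (hA2 (hK (hK' hx))) x (hB' (hL hx'))) (lt_irrefl _)
  have hun : H.IsClique ((K' ∪ L : Finset (Fin n)) : Set (Fin n)) := by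
    intro x hx y hy hxy
    rw [Finset.mem_coe, Finset.mem_union] at hx hy
    rcases hx with hx | hx <;> rcases hy with hy | hy
    · exact hKc (Finset.mem_coe.2 (hK' hx)) (Finset.mem_coe.2 (hK' hy)) hxy
    · exact h3 x hx y (hL hy)
    · exact (h3 y hy x (hL hx)).symm
    · exact hLc (Finset.mem_coe.2 hx) (Finset.mem_coe.2 hy) hxy
  have hW : K'.card + L.card ≤ cl H W := by
    rw [← Finset.card_union_of_disjoint hdisj]
    refine c1_le_cl H W _ ?_ hun
    refine Finset.union_subset ?_ ?_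
    · exact ((hK'.trans hK).trans hA2).trans hA
    · exact (hL.trans hB').trans hB
  have hA2W : cl Hᶜ A2 ≤ cl Hᶜ W := c1_cl_mono _ (hA2.trans hA)
  have hB2W : cl Hᶜ B' ≤ cl Hᶜ W := c1_cl_mono _ (hB'.trans hB)
  have r1 := hrec A2 hNA
  have r2 := hrec B' hNB
  have c1 : ((cl H A2 : ℕ) : ℝ) ≤ 2 * (K'.card : ℝ) := by
    rw [← hKcard]; exact_mod_cast hKK
  have c2 : (K'.card : ℝ) + (cl H B' : ℝ) ≤ (cl H W : ℝ) := by
    rw [← hLcard]; exact_mod_cast hW
  have c3 : (cl Hᶜ A2 : ℝ) ≤ (cl Hᶜ W : ℝ) := by exact_mod_cast hA2W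
  have c4 : (cl Hᶜ B' : ℝ) ≤ (cl Hᶜ W : ℝ) := by exact_mod_cast hB2W
  have p1 : (0:ℝ) ≤ (cl H A2 : ℝ) := Nat.cast_nonneg _
  have p2 : (0:ℝ) ≤ (cl H B' : ℝ) := Nat.cast_nonneg _
  have p3 : (0:ℝ) ≤ (cl Hᶜ W : ℝ) := Nat.cast_nonneg _
  calc 3 / 2 * P0 = 1 / 2 * P0 + P0 := by ring
    _ ≤ 1 / 2 * ((cl H A2 : ℝ) * cl Hᶜ A2) + (cl H B' : ℝ) * cl Hᶜ B' := by linarith
    _ ≤ 1 / 2 * ((cl H A2 : ℝ) * cl Hᶜ W) + (cl H B' : ℝ) * cl Hᶜ W := by
        have := mul_le_mul_of_nonneg_left c3 p1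
        have := mul_le_mul_of_nonneg_left c4 p2
        linarith
    _ = (1 / 2 * (cl H A2 : ℝ) + (cl H B' : ℝ)) * cl Hᶜ W := by ring
    _ ≤ (cl H W : ℝ) * cl Hᶜ W := by
        refine mul_le_mul_of_nonneg_right ?_ p3
        linarith

theorem C1 (hT2 : S_T2) : S_C1 := by
  classical
  intro n G D d k E N P0 hd hE hN hP0 hNR hcl hrec W hW
  have hpow : N * 2 ^ (D + E + 4) = 2 * (N * 2 ^ (D + E + 3)) := by ring
  set n2 := N * 2 ^ (D + E + 3) with hn2
  have hn2pos : 1 ≤ n2 := by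
    rw [hn2]; exact Nat.mul_pos hN (by positivity)
  obtain ⟨A, hA, hAc, hAl⟩ := c1_split W n2 (by omega)
  have hBc : n2 ≤ (W \ A).card := by
    rw [Finset.card_sdiff_of_subset hA]; omega
  have hAne : A.Nonempty := by rw [← Finset.card_pos]; omega
  have hBne : (W \ A).Nonempty := by rw [← Finset.card_pos]; omega
  obtain ⟨A1, hA1, B1, hB1, hprod, hor⟩ := hNR A (W \ A) hAl hAne hBne
  have e3 : n2 = 2 ^ D * (N * 2 ^ (E + 3)) := by rw [hn2]; ring
  have hA1c : N * 2 ^ (E + 3) ≤ A1.card := by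
    have h1 : A.card * (W \ A).card ≤ (2 ^ D * A1.card) * (W \ A).card := by
      calc A.card * (W \ A).card ≤ 2 ^ D * (A1.card * B1.card) := hprod
        _ ≤ 2 ^ D * (A1.card * (W \ A).card) :=
            Nat.mul_le_mul_left _ (Nat.mul_le_mul_left _ (Finset.card_le_card hB1))
        _ = (2 ^ D * A1.card) * (W \ A).card := by ring
    have h2 := Nat.le_of_mul_le_mul_right h1 (Finset.card_pos.2 hBne)
    rw [hAc, e3] at h2
    exact Nat.le_of_mul_le_mul_left h2 (by positivity)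
  have hB1c : N * 2 ^ (E + 3) ≤ B1.card := by
    have h1 : A.card * (W \ A).card ≤ A.card * (2 ^ D * B1.card) := by
      calc A.card * (W \ A).card ≤ 2 ^ D * (A1.card * B1.card) := hprod
        _ ≤ 2 ^ D * (A.card * B1.card) :=
            Nat.mul_le_mul_left _ (Nat.mul_le_mul_right _ (Finset.card_le_card hA1))
        _ = A.card * (2 ^ D * B1.card) := by ring
    have h2 := Nat.le_of_mul_le_mul_left h1 (Finset.card_pos.2 hAne)
    have h3 := hBc.trans h2
    rw [e3] at h3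
    exact Nat.le_of_mul_le_mul_left h3 (by positivity)
  have hlt : ∀ x ∈ A1, ∀ y ∈ B1, x < y := fun x hx y hy => hAl x (hA1 hx) y (hB1 hy)
  have hBW : B1 ⊆ W := hB1.trans Finset.sdiff_subset
  rcases hor with h | h
  · exact c1_core hT2 G d k E N P0 hd hE (fun W => (hcl W).1) hrec W A1 B1 (hA1.trans hA) hBW hlt
      hA1c hB1c h
  · have hc : cnt (fun x y => ¬ Gᶜ.Adj x y) A1 B1 = cnt (fun x y => G.Adj x y) A1 B1 := by
      unfold cnt
      congr 1
      ext ⟨x, y⟩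
      simp only [Finset.mem_filter, Finset.mem_product, and_congr_right_iff]
      rintro ⟨hx, hy⟩
      have hxy : x ≠ y := (hlt x hx y hy).ne
      rw [SimpleGraph.compl_adj]
      constructor
      · intro h'
        by_contra h''
        exact h' ⟨hxy, h''⟩
      · intro h' h''
        exact h''.2 h'
    have := c1_core hT2 Gᶜ d k E N P0 hd hE (fun W => (hcl W).2) (fun W hW => by
      rw [compl_compl, mul_comm]; exact hrec W hW) W A1 B1 (hA1.trans hA) hBW hlt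
      hA1c hB1c (by rw [hc]; exact h)
    rw [compl_compl] at this
    rw [mul_comm (cl G W : ℝ)]
    exact this

end Pool.Agent.H522R5.CC
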