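import Mathlib

/-!
Ramsey numbers of colourings of small communication complexity: definitions and the statements
of the independent parts of the proof.
-/

namespace Pool.Agent.H522R5.CC

open Finset

/-- Deterministic two-party protocol trees over a vertex set `V`: in a node `alice f l r` the
owner of `x` sends the bit `f x`, in a node `bob f l r` the owner of `y` sends `f y`. -/
inductive Prot (V : Type) : Type
  | leaf (out : Bool) : Prot V
  | alice (f : V → Bool) (l r : Prot V) : Prot V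
  | bob (f : V → Bool) (l r : Prot V) : Prot V

namespace Prot

variable {V : Type}

/-- the output on the pair `(x, y)` -/
def run : Prot V → V → V → Bool
  | leaf b, _, _ => b
  | alice f l r, x, y => if f x = true then run r x y else run l x y
  | bob f l r, x, y => if f y = true then run r x y else run l x y

/-- the number of bits exchanged in the worst case -/
def bits : Prot V → ℕ
  | leaf _ => 0
  | alice _ l r => max (bits l) (bits r) + 1
  | bob _ l r => max (bits l) (bits r) + 1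

end Prot

/-- the probability that a public coin protocol accepts `(x, y)` -/
noncomputable def acc {V Ω : Type} [Fintype Ω] (p : Ω → ℝ) (P : Ω → Prot V) (x y : V) : ℝ :=
  ∑ w, p w * (if (P w).run x y = true then 1 else 0)

/-- `G` has a small-bounded-error (SBP) public coin protocol of total cost `b`: the owner of the
smaller vertex `x` of a pair and the owner of the larger vertex `y` exchange at most `c` bits and
accept with probability at least `a` if `xy` is an edge and with probability at most `a / 2` if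
it is not, where `a ≥ 2^(-t)` and `t + c ≤ b`. -/
def SBP {n : ℕ} (G : SimpleGraph (Fin n)) (b : ℕ) : Prop :=
  ∃ (t c : ℕ) (Ω : Type) (_ : Fintype Ω) (p : Ω → ℝ) (P : Ω → Prot (Fin n)) (a : ℝ),
    t + c ≤ b ∧ (∀ w, 0 ≤ p w) ∧ ∑ w, p w = 1 ∧ (∀ w, (P w).bits ≤ c) ∧ (1 / 2 : ℝ) ^ t ≤ a ∧
    ∀ x y : Fin n, x < y →
      (G.Adj x y → a ≤ acc p P x y) ∧ (¬ G.Adj x y → acc p P x y ≤ a / 2)

/-- number of pairs of `A × B` with the property `r` -/
noncomputable def cnt {V : Type} (r : V → V → Prop) (A B : Finset V) : ℕ := by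
  classical
  exact ((A ×ˢ B).filter fun q => r q.1 q.2).card

/-- size of the largest clique of `G` inside `W` -/
noncomputable def cl {V : Type} (G : SimpleGraph V) (W : Finset V) : ℕ := by
  classical
  exact (W.powerset.filter fun S : Finset V => G.IsClique (S : Set V)).sup fun S => S.card

/-- every `A × B` with `A` below `B` contains a nearly monochromatic rectangle of density
`2^(-D)`, with a proportion at most `2^(-d)` of wrong pairs -/
def NearRect {n : ℕ} (G : SimpleGraph (Fin n)) (D d : ℕ) : Prop :=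
  ∀ A B : Finset (Fin n), (∀ x ∈ A, ∀ y ∈ B, x < y) → A.Nonempty → B.Nonempty →
    ∃ A' ⊆ A, ∃ B' ⊆ B, A.card * B.card ≤ 2 ^ D * (A'.card * B'.card) ∧
      (2 ^ d * cnt (fun x y => ¬ G.Adj x y) A' B' ≤ A'.card * B'.card ∨
        2 ^ d * cnt (fun x y => G.Adj x y) A' B' ≤ A'.card * B'.card)

/-! ### The parts -/

/-- R1: a protocol tree and signed weights -/
def S_R1 : Prop := ∀ (V : Type) (P : Prot V) (w : V → V → ℝ) (A B : Finset V),
  ∃ A' ⊆ A, ∃ B' ⊆ B,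
    (∑ x ∈ A, ∑ y ∈ B, (if P.run x y = true then w x y else 0)) ≤
      2 ^ P.bits * ∑ x ∈ A', ∑ y ∈ B', w x y ∧
    0 ≤ ∑ x ∈ A', ∑ y ∈ B', w x y

/-- R2: powers of the acceptance probability and signed weights -/
def S_R2 : Prop := ∀ (V Ω : Type) [Fintype Ω] (p : Ω → ℝ) (P : Ω → Prot V) (c : ℕ),
  (∀ w, 0 ≤ p w) → ∑ w, p w = 1 → (∀ w, (P w).bits ≤ c) →
  ∀ (t : ℕ) (w : V → V → ℝ) (A B : Finset V), ∃ A' ⊆ A, ∃ B' ⊆ B,
    (∑ x ∈ A, ∑ y ∈ B, acc p P x y ^ t * w x y) ≤ 2 ^ (c * t) * ∑ x ∈ A', ∑ y ∈ B', w x y ∧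
    0 ≤ ∑ x ∈ A', ∑ y ∈ B', w x y

/-- R3: SBP protocols give nearly monochromatic rectangles -/
def S_R3 : Prop := ∀ (n : ℕ) (G : SimpleGraph (Fin n)) (b d : ℕ), SBP G b →
  NearRect G (b * (2 * d + 1) + d + 1) d

/-- T1: counting small subsets -/
def S_T1 : Prop := ∀ (V : Type) [DecidableEq V] (K : Finset V) (d k E : ℕ), 2 ≤ d → K.card ≤ k →
  4 * d * k ≤ E * 2 ^ d →
  (K.powerset.filter fun T => 2 ^ d * T.card ≤ 4 * K.card).card ≤ 2 ^ E

/-- T2: the trace argument of Erdos and Szemeredi -/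
def S_T2 : Prop := ∀ (V : Type) (good : V → V → Prop) (A B : Finset V) (d k E : ℕ), 3 ≤ d →
  4 * d * k ≤ E * 2 ^ d →
  2 ^ d * cnt (fun x y => ¬ good x y) A B ≤ A.card * B.card →
  ∃ A' ⊆ A, A.card ≤ 2 * A'.card ∧ ∀ K ⊆ A', K.card ≤ k → ∃ K' ⊆ K, ∃ B' ⊆ B,
    2 ^ d * K.card ≤ 2 ^ d * K'.card + 4 * K.card ∧ B.card ≤ 2 ^ (E + 1) * B'.card ∧
    ∀ x ∈ K', ∀ y ∈ B', good x y

/-- B1: the bottom, from Erdos-Szekeres -/
def S_B1 : Prop := ∀ (V : Type) (G : SimpleGraph V) (U : Finset V) (k e q : ℕ), 1 ≤ e →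
  2 ^ q ≤ U.card → cl G U ≤ k → cl Gᶜ U ≤ k →
  2 ^ e * q ≤ 2 ^ e * (e * cl G U) + 4 * k

/-- C1: one step of the recursion -/
def S_C1 : Prop := ∀ (n : ℕ) (G : SimpleGraph (Fin n)) (D d k E N : ℕ) (P0 : ℝ), 3 ≤ d →
  4 * d * k ≤ E * 2 ^ d → 1 ≤ N → 0 ≤ P0 → NearRect G D d →
  (∀ W : Finset (Fin n), cl G W ≤ k ∧ cl Gᶜ W ≤ k) →
  (∀ W : Finset (Fin n), N ≤ W.card → P0 ≤ (cl G W : ℝ) * cl Gᶜ W) →
  ∀ W : Finset (Fin n), N * 2 ^ (D + E + 4) ≤ W.card →
    3 / 2 * P0 ≤ (cl G W : ℝ) * cl Gᶜ W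

/-- U1: every graph on at most `2^m` vertices has cost at most `m + 1` -/
def S_U1 : Prop := ∀ (n m : ℕ) (G : SimpleGraph (Fin n)), n ≤ 2 ^ m → SBP G (m + 1)

/-- U2: nondeterministic protocols (covers by `2^b` rectangles) have SBP cost at most `b + 2` -/
def S_U2 : Prop := ∀ (n b : ℕ) (G : SimpleGraph (Fin n)) (A B : Fin (2 ^ b) → Set (Fin n)),
  (∀ i, ∀ x ∈ A i, ∀ y ∈ B i, x < y → G.Adj x y) →
  (∀ x y, x < y → G.Adj x y → ∃ i, x ∈ A i ∧ y ∈ B i) → SBP G (b + 2)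

/-- U3: bounded error randomised protocols with `c` bits have SBP cost at most `c + 1` -/
def S_U3 : Prop := ∀ (n c : ℕ) (G : SimpleGraph (Fin n)) (Ω : Type) [Fintype Ω] (p : Ω → ℝ)
  (P : Ω → Prot (Fin n)), (∀ w, 0 ≤ p w) → ∑ w, p w = 1 → (∀ w, (P w).bits ≤ c) →
  (∀ x y, x < y → (G.Adj x y → 2 / 3 ≤ acc p P x y) ∧ (¬ G.Adj x y → acc p P x y ≤ 1 / 3)) →
  SBP G (c + 1)

/-- F1: choice of the constants -/
def S_F1 : Prop := ∀ ε : ℝ, 0 < ε → ∃ δ : ℝ, 0 < δ ∧ ∃ k₀ : ℕ, ∀ k : ℕ, k₀ ≤ k → ∀ b : ℕ,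
  (b : ℝ) ≤ δ * k → ∃ (L d E e q : ℕ), 3 ≤ d ∧ 1 ≤ e ∧ 4 * d * k ≤ E * 2 ^ d ∧
    ((q + L * (b * (2 * d + 1) + d + 1 + E + 4) : ℕ) : ℝ) ≤ ε * k ∧
    ∀ h : ℕ, 2 ^ e * q ≤ 2 ^ e * (e * h) + 4 * k →
      (k : ℝ) ^ 2 < (3 / 2 : ℝ) ^ L * (h : ℝ) ^ 2

end Pool.Agent.H522R5.CC
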