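import Pool.Agent.H522R5.CC.Main

namespace Pool.Agent.H522R5.CC

open Finset

theorem pow_ge_succ (s : ℕ) : s + 1 ≤ 2 ^ s := Nat.lt_two_pow_self

theorem explicit (R3 : S_R3) (B1 : S_B1) (C1 : S_C1) (b s k n : ℕ) (hb : 1 ≤ b) (hk1 : 1 ≤ k)
    (hk : k ≤ 2 ^ s * b) (hn : 2 ^ (54 * b * (s + 1) ^ 2) ≤ n) (G : SimpleGraph (Fin n))
    (hG : SBP G b) : ∃ S : Finset (Fin n), G.IsNClique k S ∨ G.IsNIndepSet k S := by
  classical
  by_contra hno
  push Not at hno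
  obtain ⟨K, rfl⟩ : ∃ K, k = K + 1 := ⟨k - 1, by omega⟩
  have hcl : ∀ W : Finset (Fin n), cl G W ≤ K ∧ cl Gᶜ W ≤ K := by
    intro W
    constructor
    · exact cl_le_of_no G K (fun S hS => (hno S).1 hS) W
    · refine cl_le_of_no Gᶜ K (fun S hS => (hno S).2 ?_) W
      exact (SimpleGraph.isNClique_compl G).mp hS
  set d := 2 * s + 6 with hd
  set D := b * (2 * d + 1) + d + 1 with hD
  have hNR : NearRect G D d := R3 n G b d hG
  have hs := pow_ge_succ s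
  have hE : 4 * d * K ≤ b * 2 ^ d := by
    have h1 : 4 * d ≤ 2 ^ (s + 6) := by
      rw [pow_add]; norm_num; omega
    have h2 : (2 : ℕ) ^ d = 2 ^ (s + 6) * 2 ^ s := by rw [← pow_add]; congr 1; omega
    calc 4 * d * K ≤ 2 ^ (s + 6) * (2 ^ s * b) := Nat.mul_le_mul h1 (by omega)
      _ = b * 2 ^ d := by rw [h2]; ring
  have h4K : 4 * K ≤ 2 ^ (s + 2) * b := by
    have : (2 : ℕ) ^ (s + 2) * b = 4 * (2 ^ s * b) := by rw [pow_add]; ring
    omega
  have hkey : ∀ h : ℕ, 2 ^ (s + 2) * ((s + 3) * b) ≤ 2 ^ (s + 2) * ((s + 2) * h) + 4 * K →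
      b ≤ h := by
    intro h hh
    have h1 : 2 ^ (s + 2) * ((s + 3) * b) ≤ 2 ^ (s + 2) * ((s + 2) * h + b) := by
      rw [mul_add]; omega
    have h2 := Nat.le_of_mul_le_mul_left h1 (by positivity)
    have h3 : (s + 3) * b = (s + 2) * b + b := by ring
    have h4 : (s + 2) * b ≤ (s + 2) * h := by omega
    exact Nat.le_of_mul_le_mul_left h4 (by omega)
  have hbase : ∀ W : Finset (Fin n), 2 ^ ((s + 3) * b) ≤ W.card →
      (b : ℝ) ^ 2 ≤ (cl G W : ℝ) * cl Gᶜ W := by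
    intro W hW
    have h1 := B1 (Fin n) G W K (s + 2) ((s + 3) * b) (by omega) hW (hcl W).1 (hcl W).2
    have h2 := B1 (Fin n) Gᶜ W K (s + 2) ((s + 3) * b) (by omega) hW (hcl W).2
      (by rw [compl_compl]; exact (hcl W).1)
    have h1'' : (b : ℝ) ≤ cl G W := by exact_mod_cast hkey _ h1
    have h2'' : (b : ℝ) ≤ cl Gᶜ W := by exact_mod_cast hkey _ h2
    rw [sq]
    exact mul_le_mul h1'' h2'' (by positivity) (by positivity)
  have hit := iterate_step C1 G D d K b (by omega) hE hNR hcl (2 ^ ((s + 3) * b))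
    Nat.one_le_two_pow ((b : ℝ) ^ 2) (by positivity) hbase (4 * s + 1) Finset.univ (by
      rw [Finset.card_univ, Fintype.card_fin, ← pow_add]
      refine le_trans (Nat.pow_le_pow_right (by norm_num) ?_) hn
      obtain ⟨c, rfl⟩ : ∃ c, b = c + 1 := ⟨b - 1, by omega⟩
      rw [hD, hd]
      nlinarith [Nat.zero_le (c * s), Nat.zero_le (c * s ^ 2), Nat.zero_le c, Nat.zero_le s,
        Nat.zero_le (s ^ 2)])
  have hup : (cl G (Finset.univ : Finset (Fin n)) : ℝ) * cl Gᶜ (Finset.univ : Finset (Fin n)) ≤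
      (K : ℝ) ^ 2 := by
    rw [sq]
    have h1 : (cl G (Finset.univ : Finset (Fin n)) : ℝ) ≤ (K : ℝ) := by
      exact_mod_cast (hcl _).1
    have h2 : (cl Gᶜ (Finset.univ : Finset (Fin n)) : ℝ) ≤ (K : ℝ) := by
      exact_mod_cast (hcl _).2
    exact mul_le_mul h1 h2 (by positivity) (by positivity)
  have hfin : (4 : ℝ) ^ s * (b : ℝ) ^ 2 ≤ (3 / 2 : ℝ) ^ (4 * s + 1) * (b : ℝ) ^ 2 := by
    refine mul_le_mul_of_nonneg_right ?_ (by positivity)
    rw [pow_add, pow_mul, pow_one]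
    have : (4 : ℝ) ^ s ≤ ((3 / 2 : ℝ) ^ 4) ^ s := pow_le_pow_left₀ (by norm_num) (by norm_num) _
    have h0 : (0 : ℝ) < ((3 / 2 : ℝ) ^ 4) ^ s := by positivity
    linarith
  have hK : (K : ℝ) + 1 ≤ 2 ^ s * b := by exact_mod_cast hk
  have hK2 : ((K : ℝ) + 1) ^ 2 ≤ (2 ^ s * b) ^ 2 := pow_le_pow_left₀ (by positivity) hK _
  have h45 : ((2 : ℝ) ^ s * b) ^ 2 = 4 ^ s * (b : ℝ) ^ 2 := by
    rw [mul_pow, ← pow_mul, mul_comm s 2, pow_mul]; norm_num
  have : (0 : ℝ) ≤ K := Nat.cast_nonneg _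
  nlinarith

end Pool.Agent.H522R5.CC
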