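import Pool.Agent.H522R5.CC.Defs

/-!
Project CC, part F1 (helper132): choice of the constants.
-/

namespace Pool.Agent.H522R5.CC

namespace F1aux

lemma sq_le_two_pow : ∀ d : ℕ, 4 ≤ d → d ^ 2 ≤ 2 ^ d := by
  intro d hd
  induction d, hd using Nat.le_induction with
  | base => norm_num
  | succ n hn ih =>
    rw [pow_succ 2 n]
    nlinarith

end F1aux

open F1aux in
theorem F1 : S_F1 := by
  intro ε hε
  obtain ⟨e0, he0⟩ := pow_unbounded_of_one_lt (32 / ε) (one_lt_two)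
  set e : ℕ := e0 + 1 with he
  have he1 : 1 ≤ e := by omega
  have he32 : 32 / ε ≤ (2 : ℝ) ^ e := by
    rw [he, pow_succ]
    have : (0 : ℝ) < 2 ^ e0 := by positivity
    linarith
  obtain ⟨L, hL⟩ := pow_unbounded_of_one_lt ((8 * (e : ℝ) / ε) ^ 2)
    (by norm_num : (1 : ℝ) < 3 / 2)
  set d : ℕ := ⌈32 * (L : ℝ) / ε⌉₊ + 4 with hd
  have hd4 : 4 ≤ d := by omega
  have hdL : 32 * (L : ℝ) / ε ≤ d := by
    rw [hd]
    push_cast
    have := Nat.le_ceil (32 * (L : ℝ) / ε)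
    linarith
  have hdpos : (0 : ℝ) < d := by
    have : 0 < d := by omega
    exact_mod_cast this
  have h2d : (d : ℝ) ^ 2 ≤ (2 : ℝ) ^ d := by exact_mod_cast sq_le_two_pow d hd4
  have h2dpos : (0 : ℝ) < (2 : ℝ) ^ d := by positivity
  have hLd : (L : ℝ) * (4 * d) / 2 ^ d ≤ ε / 8 := by
    rw [div_le_div_iff₀ h2dpos (by norm_num)]
    have h1 : 32 * (L : ℝ) ≤ ε * d := by
      rw [div_le_iff₀ hε] at hdL
      linarith
    calc (L : ℝ) * (4 * d) * 8 = (32 * (L : ℝ)) * d := by ring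
      _ ≤ (ε * d) * d := mul_le_mul_of_nonneg_right h1 hdpos.le
      _ = ε * (d : ℝ) ^ 2 := by ring
      _ ≤ ε * 2 ^ d := mul_le_mul_of_nonneg_left h2d hε.le
  have hL0 : (0 : ℝ) ≤ L := Nat.cast_nonneg L
  refine ⟨ε / (8 * ((L : ℝ) + 1) * (2 * d + 1)), by positivity,
    ⌈8 * ((L : ℝ) * (d + 6) + 1) / ε⌉₊ + 1, ?_⟩
  intro k hk b hb
  have hk1 : 8 * ((L : ℝ) * (d + 6) + 1) / ε ≤ k := by
    refine (Nat.le_ceil _).trans ?_
    have : ⌈8 * ((L : ℝ) * (d + 6) + 1) / ε⌉₊ ≤ k := by omega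
    exact_mod_cast this
  have hkpos : (0 : ℝ) < k := by
    have : 0 < k := by omega
    exact_mod_cast this
  rw [div_le_iff₀ hε] at hk1
  have hk2 : 8 ≤ ε * k := by nlinarith [mul_nonneg hL0 hdpos.le]
  have hk3 : (L : ℝ) * (d + 6) ≤ ε * k / 8 := by linarith
  refine ⟨L, d, 4 * d * k / 2 ^ d + 1, e, ⌊ε * k / 2⌋₊, by omega, he1, ?_, ?_, ?_⟩
  · have := Nat.lt_mul_div_succ (4 * d * k) (by positivity : 0 < 2 ^ d)
    exact this.le.trans (le_of_eq (mul_comm _ _))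
  · push_cast
    have hq : ((⌊ε * k / 2⌋₊ : ℕ) : ℝ) ≤ ε * k / 2 := Nat.floor_le (by positivity)
    have hE : (((4 * d * k / 2 ^ d : ℕ)) : ℝ) ≤ (4 * d * k : ℝ) / 2 ^ d := by
      have := @Nat.cast_div_le ℝ _ _ _ (4 * d * k) (2 ^ d)
      push_cast at this
      exact this
    have hLE : (L : ℝ) * (((4 * d * k / 2 ^ d : ℕ)) : ℝ) ≤ ε / 8 * k := by
      calc (L : ℝ) * (((4 * d * k / 2 ^ d : ℕ)) : ℝ) ≤ L * ((4 * d * k : ℝ) / 2 ^ d) :=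
            mul_le_mul_of_nonneg_left hE hL0
        _ = ((L : ℝ) * (4 * d) / 2 ^ d) * k := by ring
        _ ≤ ε / 8 * k := mul_le_mul_of_nonneg_right hLd hkpos.le
    have hLb : (L : ℝ) * (b * (2 * d + 1)) ≤ ε * k / 8 := by
      have h1 : (b : ℝ) * (2 * d + 1) ≤ ε * k / (8 * ((L : ℝ) + 1)) := by
        calc (b : ℝ) * (2 * d + 1) ≤ (ε / (8 * ((L : ℝ) + 1) * (2 * d + 1)) * k) * (2 * d + 1) :=
              mul_le_mul_of_nonneg_right hb (by positivity)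
          _ = ε * k / (8 * ((L : ℝ) + 1)) := by field_simp
      calc (L : ℝ) * (b * (2 * d + 1)) ≤ L * (ε * k / (8 * ((L : ℝ) + 1))) :=
            mul_le_mul_of_nonneg_left h1 hL0
        _ ≤ (L + 1) * (ε * k / (8 * ((L : ℝ) + 1))) := by
            apply mul_le_mul_of_nonneg_right (by linarith) (by positivity)
        _ = ε * k / 8 := by field_simp
    nlinarith
  · intro h hh
    have hh' : (2 : ℝ) ^ e * (⌊ε * k / 2⌋₊ : ℕ) ≤ 2 ^ e * (e * h) + 4 * k := by exact_mod_cast hh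
    have h2e : (0 : ℝ) < (2 : ℝ) ^ e := by positivity
    have hq : ε * k / 2 - 1 < ((⌊ε * k / 2⌋₊ : ℕ) : ℝ) := Nat.sub_one_lt_floor _
    have h32 : 32 ≤ ε * (2 : ℝ) ^ e := by
      rw [div_le_iff₀ hε] at he32
      linarith
    have he' : (0 : ℝ) < e := by exact_mod_cast he1
    have h1 : (2 : ℝ) ^ e * (ε * k / 4) ≤ 2 ^ e * (e * h) := by
      have h3 : (2 : ℝ) ^ e * (ε * k / 2 - 1) ≤ 2 ^ e * (e * h) + 4 * k :=
        (mul_le_mul_of_nonneg_left hq.le h2e.le).trans hh'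
      have h4 : 4 * (k : ℝ) ≤ (2 : ℝ) ^ e * (ε * k / 8) := by
        have := mul_le_mul_of_nonneg_right h32 hkpos.le
        linarith
      have h5 : (2 : ℝ) ^ e * 1 ≤ (2 : ℝ) ^ e * (ε * k / 8) :=
        mul_le_mul_of_nonneg_left (by linarith) h2e.le
      linarith
    have h2 : ε * k / 4 ≤ e * h := le_of_mul_le_mul_left h1 h2e
    have h3 : (ε * k / 4) ^ 2 ≤ ((e : ℝ) * h) ^ 2 := pow_le_pow_left₀ (by positivity) h2 2
    have hP : 64 * (e : ℝ) ^ 2 < (3 / 2 : ℝ) ^ L * ε ^ 2 := by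
      have : (8 * (e : ℝ) / ε) ^ 2 = 64 * (e : ℝ) ^ 2 / ε ^ 2 := by
        field_simp
        ring
      rw [this, div_lt_iff₀ (by positivity)] at hL
      exact hL
    have hPpos : (0 : ℝ) < (3 / 2 : ℝ) ^ L := by positivity
    have h6 : 4 * (e : ℝ) ^ 2 * (k : ℝ) ^ 2 < (3 / 2 : ℝ) ^ L * ((e : ℝ) * h) ^ 2 := by
      calc 4 * (e : ℝ) ^ 2 * (k : ℝ) ^ 2 = (64 * (e : ℝ) ^ 2) * ((k : ℝ) ^ 2 / 16) := by ring
        _ < ((3 / 2 : ℝ) ^ L * ε ^ 2) * ((k : ℝ) ^ 2 / 16) :=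
            mul_lt_mul_of_pos_right hP (by positivity)
        _ = (3 / 2 : ℝ) ^ L * (ε * k / 4) ^ 2 := by ring
        _ ≤ (3 / 2 : ℝ) ^ L * ((e : ℝ) * h) ^ 2 := mul_le_mul_of_nonneg_left h3 hPpos.le
    have h7 : (e : ℝ) ^ 2 * (4 * (k : ℝ) ^ 2) < (e : ℝ) ^ 2 * ((3 / 2 : ℝ) ^ L * (h : ℝ) ^ 2) := by
      calc (e : ℝ) ^ 2 * (4 * (k : ℝ) ^ 2) = 4 * (e : ℝ) ^ 2 * (k : ℝ) ^ 2 := by ring
        _ < (3 / 2 : ℝ) ^ L * ((e : ℝ) * h) ^ 2 := h6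
        _ = (e : ℝ) ^ 2 * ((3 / 2 : ℝ) ^ L * (h : ℝ) ^ 2) := by ring
    have h8 := lt_of_mul_lt_mul_left h7 (by positivity)
    have h9 : (0 : ℝ) ≤ (k : ℝ) ^ 2 := by positivity
    linarith

end Pool.Agent.H522R5.CC
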