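import Pool.Agent.H522R5.CC.U1
import Pool.Agent.H161R3.Lower

namespace Pool.Agent.H522R5.CC

open Finset MvPolynomial

/-- Erdos: graphs on `2^m` vertices without homogeneous sets of size `2m+1`. -/
theorem erdos_graph (m : ℕ) (hm : 1 ≤ m) : ∃ G : SimpleGraph (Fin (2 ^ m)),
    ∀ S : Finset (Fin (2 ^ m)), ¬ G.IsNClique (2 * m + 1) S ∧ ¬ G.IsNIndepSet (2 * m + 1) S := by
  classical
  obtain ⟨P, -, -, hP⟩ := Pool.Agent.H161R3.lower 2 (2 * m + 1) m (by omega) (by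
    rw [Nat.choose_two_right]
    have : (2 * m + 1) * (2 * m + 1 - 1) = (m * (2 * m + 1)) * 2 := by
      rw [Nat.add_sub_cancel]; ring
    rw [this, Nat.mul_div_cancel _ (by norm_num)])
  set col : Finset ℕ → ZMod 2 := fun A =>
    eval (fun z => Pool.Agent.H161R3.bits m (Pool.Agent.H161R3.enum 2 A z.1) z.2) P with hcol
  let G : SimpleGraph (Fin (2 ^ m)) :=
    { Adj := fun x y => x ≠ y ∧ col {x.val, y.val} = 1
      symm := ⟨fun x y h => ⟨h.1.symm, by rw [Finset.pair_comm]; exact h.2⟩⟩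
      loopless := ⟨fun x h => h.1 rfl⟩ }
  have hpair : ∀ S : Finset (Fin (2 ^ m)), ∀ A ⊆ S.image Fin.val, A.card = 2 →
      ∃ x ∈ S, ∃ y ∈ S, x ≠ y ∧ A = {x.val, y.val} := by
    intro S A hA hc
    obtain ⟨a, b, hab, rfl⟩ := Finset.card_eq_two.mp hc
    obtain ⟨x, hx, rfl⟩ := Finset.mem_image.mp (hA (Finset.mem_insert_self _ _))
    obtain ⟨y, hy, rfl⟩ := Finset.mem_image.mp (hA (Finset.mem_insert_of_mem
      (Finset.mem_singleton_self _)))
    exact ⟨x, hx, y, hy, fun h => hab (by rw [h]), rfl⟩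
  have hz : ∀ z : ZMod 2, z ≠ 1 → z = 0 := by decide
  have hmain : ∀ S : Finset (Fin (2 ^ m)), S.card = 2 * m + 1 → ∃ A ⊆ S.image Fin.val,
      ∃ B ⊆ S.image Fin.val, A.card = 2 ∧ B.card = 2 ∧ col A ≠ col B := by
    intro S hS
    obtain ⟨A, hA, B, hB, h1, h2, h3⟩ := hP (S.image Fin.val) (by
      intro z hz
      obtain ⟨x, -, rfl⟩ := Finset.mem_image.mp hz
      exact Finset.mem_range.mpr x.isLt) (by
      rw [Finset.card_image_of_injective _ Fin.val_injective, hS])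
    exact ⟨A, hA, B, hB, h1, h2, h3⟩
  refine ⟨G, fun S => ⟨fun h => ?_, fun h => ?_⟩⟩
  · obtain ⟨A, hA, B, hB, h1, h2, h3⟩ := hmain S h.card_eq
    obtain ⟨x, hx, y, hy, hxy, rfl⟩ := hpair S A hA h1
    obtain ⟨x', hx', y', hy', hxy', rfl⟩ := hpair S B hB h2
    have e1 := (h.isClique hx hy hxy).2
    have e2 := (h.isClique hx' hy' hxy').2
    exact h3 (e1.trans e2.symm)
  · obtain ⟨A, hA, B, hB, h1, h2, h3⟩ := hmain S h.card_eq
    obtain ⟨x, hx, y, hy, hxy, rfl⟩ := hpair S A hA h1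
    obtain ⟨x', hx', y', hy', hxy', rfl⟩ := hpair S B hB h2
    have e1 : col {x.val, y.val} = 0 := hz _ fun hc => h.isIndepSet hx hy hxy ⟨hxy, hc⟩
    have e2 : col {x'.val, y'.val} = 0 := hz _ fun hc => h.isIndepSet hx' hy' hxy' ⟨hxy', hc⟩
    exact h3 (e1.trans e2.symm)

theorem lower_sbp (m : ℕ) (hm : 1 ≤ m) : ∃ G : SimpleGraph (Fin (2 ^ m)), SBP G (m + 1) ∧
    ∀ S : Finset (Fin (2 ^ m)), ¬ G.IsNClique (2 * m + 1) S ∧ ¬ G.IsNIndepSet (2 * m + 1) S := by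
  obtain ⟨G, hG⟩ := erdos_graph m hm
  exact ⟨G, U1 (2 ^ m) m G le_rfl, hG⟩

end Pool.Agent.H522R5.CC
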