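import Pool.Agent.H522R5.CC.Defs

namespace Pool.Agent.H522R5.CC

open Finset

theorem cl_le_of_no {V : Type} (G : SimpleGraph V) (k : ℕ)
    (h : ∀ S : Finset V, ¬ G.IsNClique (k + 1) S) (W : Finset V) : cl G W ≤ k := by
  classical
  unfold cl
  refine Finset.sup_le fun S hS => ?_
  by_contra hlt
  push Not at hlt
  obtain ⟨T, hTS, hT⟩ := Finset.exists_subset_card_eq (show k + 1 ≤ S.card from hlt)
  refine h T ⟨?_, hT⟩
  exact (Finset.mem_filter.mp hS).2.subset (by exact_mod_cast hTS)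

theorem iterate_step {n : ℕ} (C1 : S_C1) (G : SimpleGraph (Fin n)) (D d k E : ℕ)
    (hd : 3 ≤ d) (hE : 4 * d * k ≤ E * 2 ^ d) (hN : NearRect G D d)
    (hcl : ∀ W : Finset (Fin n), cl G W ≤ k ∧ cl Gᶜ W ≤ k) (N : ℕ) (hN1 : 1 ≤ N) (P0 : ℝ)
    (hP0 : 0 ≤ P0)
    (h0 : ∀ W : Finset (Fin n), N ≤ W.card → P0 ≤ (cl G W : ℝ) * cl Gᶜ W) (L : ℕ) :
    ∀ W : Finset (Fin n), N * 2 ^ (L * (D + E + 4)) ≤ W.card →
      (3 / 2 : ℝ) ^ L * P0 ≤ (cl G W : ℝ) * cl Gᶜ W := by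
  induction L with
  | zero => intro W hW; simpa using h0 W (by simpa using hW)
  | succ L ih =>
    intro W hW
    have hpos : 1 ≤ N * 2 ^ (L * (D + E + 4)) := Nat.one_le_iff_ne_zero.mpr (by positivity)
    have := C1 n G D d k E (N * 2 ^ (L * (D + E + 4))) ((3 / 2 : ℝ) ^ L * P0) hd hE hpos
      (by positivity) hN hcl ih W (by
        rw [mul_assoc, ← pow_add]
        convert hW using 3
        ring)
    rw [pow_succ]
    linarith

theorem threshold (R3 : S_R3) (B1 : S_B1) (C1 : S_C1) (F1 : S_F1) {ε : ℝ} (hε : 0 < ε) :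
    ∃ δ : ℝ, 0 < δ ∧ ∃ k₀ : ℕ, ∀ k : ℕ, k₀ ≤ k → ∀ b : ℕ, (b : ℝ) ≤ δ * k → ∀ n : ℕ,
      (2 : ℝ) ^ (ε * k) ≤ n → ∀ G : SimpleGraph (Fin n), SBP G b →
        ∃ S : Finset (Fin n), G.IsNClique k S ∨ G.IsNIndepSet k S := by
  classical
  obtain ⟨δ, hδ, k₀, hF⟩ := F1 ε hε
  refine ⟨δ, hδ, k₀ + 1, fun k hk b hb n hn G hG => ?_⟩
  obtain ⟨L, d, E, e, q, hd, he, hE, hsum, hfin⟩ := hF k (by omega) b hb
  by_contra hno
  push Not at hno
  obtain ⟨k', rfl⟩ : ∃ k', k = k' + 1 := ⟨k - 1, by omega⟩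
  have hcl : ∀ W : Finset (Fin n), cl G W ≤ k' + 1 ∧ cl Gᶜ W ≤ k' + 1 := by
    intro W
    constructor
    · exact (cl_le_of_no G k' (fun S hS => (hno S).1 hS) W).trans (Nat.le_succ _)
    · refine (cl_le_of_no Gᶜ k' (fun S hS => (hno S).2 ?_) W).trans (Nat.le_succ _)
      exact (SimpleGraph.isNClique_compl G).mp hS
  set D := b * (2 * d + 1) + d + 1 with hD
  have hNR : NearRect G D d := R3 n G b d hG
  -- the bottom
  set h0 : ℕ := sInf {h : ℕ | 2 ^ e * q ≤ 2 ^ e * (e * h) + 4 * (k' + 1)} with hh0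
  have hne : {h : ℕ | 2 ^ e * q ≤ 2 ^ e * (e * h) + 4 * (k' + 1)}.Nonempty := by
    refine ⟨q, ?_⟩
    show 2 ^ e * q ≤ 2 ^ e * (e * q) + 4 * (k' + 1)
    have : q ≤ e * q := Nat.le_mul_of_pos_left _ he
    calc 2 ^ e * q ≤ 2 ^ e * (e * q) := Nat.mul_le_mul_left _ this
      _ ≤ _ := Nat.le_add_right _ _
  have hmem : 2 ^ e * q ≤ 2 ^ e * (e * h0) + 4 * (k' + 1) := Nat.sInf_mem hne
  have hbase : ∀ W : Finset (Fin n), 2 ^ q ≤ W.card →
      (h0 : ℝ) ^ 2 ≤ (cl G W : ℝ) * cl Gᶜ W := by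
    intro W hW
    have h1 := B1 (Fin n) G W (k' + 1) e q he hW (hcl W).1 (hcl W).2
    have h2 := B1 (Fin n) Gᶜ W (k' + 1) e q he hW (hcl W).2 (by rw [compl_compl]; exact (hcl W).1)
    have h1' : h0 ≤ cl G W := Nat.sInf_le h1
    have h2' : h0 ≤ cl Gᶜ W := Nat.sInf_le h2
    have h1'' : (h0 : ℝ) ≤ cl G W := by exact_mod_cast h1'
    have h2'' : (h0 : ℝ) ≤ cl Gᶜ W := by exact_mod_cast h2'
    rw [sq]
    exact mul_le_mul h1'' h2'' (by positivity) (by positivity)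
  have hit := iterate_step C1 G D d (k' + 1) E hd hE hNR hcl (2 ^ q) Nat.one_le_two_pow
    ((h0 : ℝ) ^ 2) (by positivity) hbase L Finset.univ (by
      rw [Finset.card_univ, Fintype.card_fin]
      have h1 : ((2 ^ q * 2 ^ (L * (D + E + 4)) : ℕ) : ℝ) ≤ (n : ℝ) := by
        refine le_trans ?_ hn
        rw [← pow_add, Nat.cast_pow, Nat.cast_ofNat, ← Real.rpow_natCast]
        exact Real.rpow_le_rpow_of_exponent_le (by norm_num) hsum
      exact_mod_cast h1)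
  have hfin' := hfin h0 hmem
  have hup : (cl G (Finset.univ : Finset (Fin n)) : ℝ) * cl Gᶜ (Finset.univ : Finset (Fin n)) ≤
      ((k' + 1 : ℕ) : ℝ) ^ 2 := by
    rw [sq]
    have h1 : (cl G (Finset.univ : Finset (Fin n)) : ℝ) ≤ ((k' + 1 : ℕ) : ℝ) := by
      exact_mod_cast (hcl _).1
    have h2 : (cl Gᶜ (Finset.univ : Finset (Fin n)) : ℝ) ≤ ((k' + 1 : ℕ) : ℝ) := by
      exact_mod_cast (hcl _).2
    exact mul_le_mul h1 h2 (by positivity) (by positivity)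
  linarith

end Pool.Agent.H522R5.CC
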