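import Pool.Agent.H522R5.CC.Defs

/-! Task R1 (helper553): rectangle from a protocol tree. -/

namespace Pool.Agent.H522R5.CC

open Finset

private theorem r1_comb (M a b : ℕ) (ha : a ≤ M) (hb : b ≤ M) (T1 T2 s1 s2 : ℝ)
    (h1 : T1 ≤ 2 ^ a * s1) (h2 : T2 ≤ 2 ^ b * s2) (h1' : 0 ≤ s1) (h2' : 0 ≤ s2) :
    T1 + T2 ≤ 2 ^ (M + 1) * max s1 s2 := by
  have e1 : (2 : ℝ) ^ a ≤ 2 ^ M := pow_le_pow_right₀ (by norm_num) ha
  have e2 : (2 : ℝ) ^ b ≤ 2 ^ M := pow_le_pow_right₀ (by norm_num) hb
  have hM : (0 : ℝ) < 2 ^ M := by positivity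
  have f1 : T1 ≤ 2 ^ M * max s1 s2 :=
    h1.trans (mul_le_mul e1 (le_max_left _ _) h1' hM.le)
  have f2 : T2 ≤ 2 ^ M * max s1 s2 :=
    h2.trans (mul_le_mul e2 (le_max_right _ _) h2' hM.le)
  have : (2 : ℝ) ^ (M + 1) * max s1 s2 = 2 ^ M * max s1 s2 + 2 ^ M * max s1 s2 := by
    rw [pow_succ]; ring
  linarith

theorem R1 : S_R1 := by
  intro V P w
  induction P with
  | leaf b =>
    intro A B
    cases b with
    | false =>
      refine ⟨∅, empty_subset _, ∅, empty_subset _, ?_, ?_⟩ <;> simp [Prot.run]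
    | true =>
      by_cases h : 0 ≤ ∑ x ∈ A, ∑ y ∈ B, w x y
      · refine ⟨A, Subset.refl _, B, Subset.refl _, ?_, h⟩
        simp [Prot.run, Prot.bits]
      · refine ⟨∅, empty_subset _, ∅, empty_subset _, ?_, ?_⟩
        · simp only [Prot.run, if_true, sum_empty, mul_zero]
          exact (not_le.1 h).le
        · simp
  | alice f l r ihl ihr =>
    intro A B
    obtain ⟨A1, hA1, B1, hB1, h1, h1'⟩ := ihr (A.filter fun x => f x = true) B
    obtain ⟨A2, hA2, B2, hB2, h2, h2'⟩ := ihl (A.filter fun x => ¬ f x = true) B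
    have hsplit : (∑ x ∈ A, ∑ y ∈ B, (if (Prot.alice f l r).run x y = true then w x y else 0)) =
        (∑ x ∈ A.filter (fun x => f x = true), ∑ y ∈ B, (if r.run x y = true then w x y else 0)) +
        ∑ x ∈ A.filter (fun x => ¬ f x = true), ∑ y ∈ B,
          (if l.run x y = true then w x y else 0) := by
      rw [← sum_filter_add_sum_filter_not A (fun x => f x = true)]
      congr 1
      · refine sum_congr rfl fun x hx => sum_congr rfl fun y _ => ?_
        have hf : f x = true := (mem_filter.1 hx).2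
        simp [Prot.run, hf]
      · refine sum_congr rfl fun x hx => sum_congr rfl fun y _ => ?_
        have hf : ¬ f x = true := (mem_filter.1 hx).2
        simp [Prot.run, hf]
    have hmain := r1_comb (max l.bits r.bits) r.bits l.bits (le_max_right _ _) (le_max_left _ _)
      _ _ _ _ h1 h2 h1' h2'
    rw [← hsplit] at hmain
    rcases le_total (∑ x ∈ A2, ∑ y ∈ B2, w x y) (∑ x ∈ A1, ∑ y ∈ B1, w x y) with h | h
    · rw [max_eq_left h] at hmain
      exact ⟨A1, hA1.trans (filter_subset _ _), B1, hB1, hmain, h1'⟩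
    · rw [max_eq_right h] at hmain
      exact ⟨A2, hA2.trans (filter_subset _ _), B2, hB2, hmain, h2'⟩
  | bob f l r ihl ihr =>
    intro A B
    obtain ⟨A1, hA1, B1, hB1, h1, h1'⟩ := ihr A (B.filter fun x => f x = true)
    obtain ⟨A2, hA2, B2, hB2, h2, h2'⟩ := ihl A (B.filter fun x => ¬ f x = true)
    have hsplit : (∑ x ∈ A, ∑ y ∈ B, (if (Prot.bob f l r).run x y = true then w x y else 0)) =
        (∑ x ∈ A, ∑ y ∈ B.filter (fun x => f x = true),
          (if r.run x y = true then w x y else 0)) +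
        ∑ x ∈ A, ∑ y ∈ B.filter (fun x => ¬ f x = true),
          (if l.run x y = true then w x y else 0) := by
      rw [← sum_add_distrib]
      refine sum_congr rfl fun x _ => ?_
      rw [← sum_filter_add_sum_filter_not B (fun x => f x = true)]
      congr 1
      · refine sum_congr rfl fun y hy => ?_
        have hf : f y = true := (mem_filter.1 hy).2
        simp [Prot.run, hf]
      · refine sum_congr rfl fun y hy => ?_
        have hf : ¬ f y = true := (mem_filter.1 hy).2
        simp [Prot.run, hf]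
    have hmain := r1_comb (max l.bits r.bits) r.bits l.bits (le_max_right _ _) (le_max_left _ _)
      _ _ _ _ h1 h2 h1' h2'
    rw [← hsplit] at hmain
    rcases le_total (∑ x ∈ A2, ∑ y ∈ B2, w x y) (∑ x ∈ A1, ∑ y ∈ B1, w x y) with h | h
    · rw [max_eq_left h] at hmain
      exact ⟨A1, hA1, B1, hB1.trans (filter_subset _ _), hmain, h1'⟩
    · rw [max_eq_right h] at hmain
      exact ⟨A2, hA2, B2, hB2.trans (filter_subset _ _), hmain, h2'⟩

end Pool.Agent.H522R5.CC
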