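import Pool.Agent.H522R5.CC.Defs

namespace Pool.Agent.H522R5.CC

open Finset

theorem R2 (h1 : S_R1) : S_R2 := by
  intro V Ω _ p P c hp hsum hbits t
  induction t with
  | zero =>
    intro w A B
    by_cases h : 0 ≤ ∑ x ∈ A, ∑ y ∈ B, w x y
    · exact ⟨A, Subset.rfl, B, Subset.rfl, by simp, h⟩
    · refine ⟨∅, empty_subset _, ∅, empty_subset _, ?_, ?_⟩
      · push Not at h
        simpa using h.le
      · simp
  | succ t ih =>
    intro w A B
    set u : V → V → ℝ := fun x y => acc p P x y ^ t * w x y with hu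
    set Tm : Ω → ℝ := fun om => ∑ x ∈ A, ∑ y ∈ B, (if (P om).run x y = true then u x y else 0)
      with hT
    set L : ℝ := ∑ x ∈ A, ∑ y ∈ B, acc p P x y ^ (t + 1) * w x y with hL
    have e1 : L = ∑ om, p om * Tm om := by
      have e2 : ∀ x y, acc p P x y ^ (t + 1) * w x y =
          ∑ om, p om * (if (P om).run x y = true then u x y else 0) := by
        intro x y
        have e3 : acc p P x y ^ (t + 1) * w x y = acc p P x y * u x y := by
          rw [hu]; ring
        rw [e3]
        conv_lhs => rw [acc]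
        rw [sum_mul]
        apply sum_congr rfl
        intro om _
        split_ifs <;> ring
      rw [hL, hT]
      simp only [e2, mul_sum]
      calc ∑ x ∈ A, ∑ y ∈ B, ∑ om, p om * (if (P om).run x y = true then u x y else 0)
          = ∑ x ∈ A, ∑ om, ∑ y ∈ B, p om * (if (P om).run x y = true then u x y else 0) :=
            sum_congr rfl (fun x _ => sum_comm)
        _ = _ := sum_comm
    obtain ⟨om, hom⟩ : ∃ om, L ≤ Tm om := by
      by_contra hcon
      push Not at hcon
      have h2 : ∃ om ∈ (univ : Finset Ω), 0 < p om := by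
        by_contra h3
        push Not at h3
        have h4 : ∑ w, p w ≤ 0 := sum_nonpos h3
        linarith
      obtain ⟨om, hom1, hom2⟩ := h2
      have h5 : ∑ om, p om * Tm om < ∑ om, p om * L :=
        sum_lt_sum (fun i _ => mul_le_mul_of_nonneg_left (hcon i).le (hp i))
          ⟨om, hom1, mul_lt_mul_of_pos_left (hcon om) hom2⟩
      rw [← sum_mul, hsum, one_mul, ← e1] at h5
      exact lt_irrefl _ h5
    obtain ⟨A1, hA1, B1, hB1, f1, f2⟩ := h1 V (P om) u A B
    obtain ⟨A2, hA2, B2, hB2, g1, g2⟩ := ih w A1 B1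
    refine ⟨A2, hA2.trans hA1, B2, hB2.trans hB1, ?_, g2⟩
    calc L ≤ Tm om := hom
      _ ≤ 2 ^ (P om).bits * ∑ x ∈ A1, ∑ y ∈ B1, u x y := f1
      _ ≤ 2 ^ c * ∑ x ∈ A1, ∑ y ∈ B1, u x y :=
        mul_le_mul_of_nonneg_right (pow_le_pow_right₀ (by norm_num) (hbits om)) f2
      _ ≤ 2 ^ c * (2 ^ (c * t) * ∑ x ∈ A2, ∑ y ∈ B2, w x y) :=
        mul_le_mul_of_nonneg_left g1 (by positivity)
      _ = 2 ^ (c * (t + 1)) * ∑ x ∈ A2, ∑ y ∈ B2, w x y := by
        rw [← mul_assoc, ← pow_add]
        congr 2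
        ring

end Pool.Agent.H522R5.CC
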