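import Pool.Agent.H522R5.CC.Defs

namespace Pool.Agent.H522R5.CC

open Finset

theorem R3_card_sum {V : Type} (r : V → V → Prop) (A B : Finset V) [∀ x y, Decidable (r x y)] :
    ((cnt r A B : ℕ) : ℝ) = ∑ x ∈ A, ∑ y ∈ B, (if r x y then (1 : ℝ) else 0) := by
  classical
  unfold cnt
  rw [Finset.card_filter]
  push_cast
  rw [Finset.sum_product]

theorem R3 (R2 : S_R2) : S_R3 := by
  classical
  intro n G b d hG A B hAB hA hB
  obtain ⟨t0, c, Ω, _, p, P, a, htc, hp, hp1, hbits, ha, hacc⟩ := hG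
  have hcA : (0 : ℝ) < A.card := by exact_mod_cast hA.card_pos
  have hcB : (0 : ℝ) < B.card := by exact_mod_cast hB.card_pos
  set D := b * (2 * d + 1) + d + 1 with hD
  by_cases hcase : 2 ^ d * cnt (fun x y => G.Adj x y) A B ≤ A.card * B.card
  · refine ⟨A, Subset.rfl, B, Subset.rfl, ?_, Or.inr hcase⟩
    exact Nat.le_mul_of_pos_left _ (by positivity)
  push Not at hcase
  have ha0 : 0 < a := lt_of_lt_of_le (by positivity) ha
  obtain ⟨A', hA', B', hB', h1, h2⟩ := R2 (Fin n) Ω p P c hp hp1 hbits (2 * d + 1)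
    (fun x y => if G.Adj x y then 1 else -(2 : ℝ) ^ d) A B
  have hacc0 : ∀ x y, 0 ≤ acc p P x y := by
    intro x y
    unfold acc
    refine Finset.sum_nonneg fun w _ => mul_nonneg (hp w) ?_
    split_ifs <;> norm_num
  -- lower bound for the left side
  have hcntA : ((cnt (fun x y => G.Adj x y) A B : ℕ) : ℝ) =
      ∑ x ∈ A, ∑ y ∈ B, (if G.Adj x y then (1 : ℝ) else 0) := R3_card_sum _ A B
  have hlow : a ^ (2 * d + 1) * (∑ x ∈ A, ∑ y ∈ B, (if G.Adj x y then (1 : ℝ) else 0)) -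
      2 ^ d * (a / 2) ^ (2 * d + 1) * (A.card * B.card) ≤
      ∑ x ∈ A, ∑ y ∈ B, acc p P x y ^ (2 * d + 1) * (if G.Adj x y then 1 else -(2 : ℝ) ^ d) := by
    have e : (2 : ℝ) ^ d * (a / 2) ^ (2 * d + 1) * (A.card * B.card) =
        ∑ x ∈ A, ∑ y ∈ B, (2 : ℝ) ^ d * (a / 2) ^ (2 * d + 1) := by
      simp only [Finset.sum_const, nsmul_eq_mul]
      ring
    rw [e, Finset.mul_sum, ← Finset.sum_sub_distrib]
    refine Finset.sum_le_sum fun x hx => ?_
    rw [Finset.mul_sum, ← Finset.sum_sub_distrib]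
    refine Finset.sum_le_sum fun y hy => ?_
    have hxy := hAB x hx y hy
    obtain ⟨hy1, hy2⟩ := hacc x y hxy
    split_ifs with h
    · have h3 : a ^ (2 * d + 1) ≤ acc p P x y ^ (2 * d + 1) :=
        pow_le_pow_left₀ ha0.le (hy1 h) _
      have h4 : (0 : ℝ) ≤ 2 ^ d * (a / 2) ^ (2 * d + 1) := by positivity
      linarith
    · have h3 : acc p P x y ^ (2 * d + 1) ≤ (a / 2) ^ (2 * d + 1) :=
        pow_le_pow_left₀ (hacc0 x y) (hy2 h) _
      have h4 : (0 : ℝ) < 2 ^ d := by positivity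
      nlinarith
  rw [← hcntA] at hlow
  have hcaseR : (A.card : ℝ) * B.card < 2 ^ d * (cnt (fun x y => G.Adj x y) A B : ℕ) := by
    exact_mod_cast hcase
  have hT : a ^ (2 * d + 1) * (A.card * B.card) ≤ 2 ^ (d + 1) *
      ∑ x ∈ A, ∑ y ∈ B, acc p P x y ^ (2 * d + 1) * (if G.Adj x y then 1 else -(2 : ℝ) ^ d) := by
    have e1 : (a / 2) ^ (2 * d + 1) = a ^ (2 * d + 1) / 2 ^ (2 * d + 1) := div_pow _ _ _
    have e2 : (2 : ℝ) ^ (2 * d + 1) = 2 * (2 ^ d * 2 ^ d) := by ring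
    have hpos : (0 : ℝ) < 2 ^ d := by positivity
    have hapos : 0 < a ^ (2 * d + 1) := by positivity
    have e3 : (2 : ℝ) ^ d * (a / 2) ^ (2 * d + 1) = a ^ (2 * d + 1) / (2 * 2 ^ d) := by
      rw [e1, e2]
      field_simp
    rw [e3] at hlow
    have h5 : a ^ (2 * d + 1) * (A.card * B.card) / 2 ^ d ≤
        a ^ (2 * d + 1) * (cnt (fun x y => G.Adj x y) A B : ℕ) := by
      rw [div_le_iff₀ hpos]
      nlinarith
    have h6 : a ^ (2 * d + 1) * (A.card * B.card) / 2 ^ d -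
        a ^ (2 * d + 1) / (2 * 2 ^ d) * (A.card * B.card) =
        a ^ (2 * d + 1) * (A.card * B.card) / (2 * 2 ^ d) := by
      field_simp
      ring
    have h7 : a ^ (2 * d + 1) * (A.card * B.card) / (2 * 2 ^ d) ≤ ∑ x ∈ A, ∑ y ∈ B,
        acc p P x y ^ (2 * d + 1) * (if G.Adj x y then 1 else -(2 : ℝ) ^ d) := by linarith
    rw [div_le_iff₀ (by positivity)] at h7
    calc _ ≤ _ := h7
      _ = _ := by ring
  -- the right side
  have hcntA' : ((cnt (fun x y => G.Adj x y) A' B' : ℕ) : ℝ) =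
      ∑ x ∈ A', ∑ y ∈ B', (if G.Adj x y then (1 : ℝ) else 0) := R3_card_sum _ A' B'
  have hcntN' : ((cnt (fun x y => ¬ G.Adj x y) A' B' : ℕ) : ℝ) =
      ∑ x ∈ A', ∑ y ∈ B', (if ¬ G.Adj x y then (1 : ℝ) else 0) := R3_card_sum _ A' B'
  have hs : ∑ x ∈ A', ∑ y ∈ B', (if G.Adj x y then (1 : ℝ) else -(2 : ℝ) ^ d) =
      (cnt (fun x y => G.Adj x y) A' B' : ℕ) -
        2 ^ d * ((cnt (fun x y => ¬ G.Adj x y) A' B' : ℕ) : ℝ) := by
    rw [hcntA', hcntN', Finset.mul_sum, ← Finset.sum_sub_distrib]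
    refine Finset.sum_congr rfl fun x _ => ?_
    rw [Finset.mul_sum, ← Finset.sum_sub_distrib]
    refine Finset.sum_congr rfl fun y _ => ?_
    by_cases h : G.Adj x y <;> simp [h]
  have hle : ((cnt (fun x y => G.Adj x y) A' B' : ℕ) : ℝ) ≤ A'.card * B'.card := by
    have : cnt (fun x y => G.Adj x y) A' B' ≤ A'.card * B'.card := by
      unfold cnt
      rw [← Finset.card_product]
      exact Finset.card_filter_le _ _
    exact_mod_cast this
  rw [hs] at h1 h2
  refine ⟨A', hA', B', hB', ?_, Or.inl ?_⟩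
  · have h8 : ((A.card * B.card : ℕ) : ℝ) ≤ ((2 ^ D * (A'.card * B'.card) : ℕ) : ℝ) := by
      push_cast
      have h9 : a ^ (2 * d + 1) * ((A.card : ℝ) * B.card) ≤
          2 ^ (d + 1) * (2 ^ (c * (2 * d + 1)) * ((A'.card : ℝ) * B'.card)) := by
        refine hT.trans ?_
        refine mul_le_mul_of_nonneg_left ?_ (by positivity)
        refine h1.trans ?_
        refine mul_le_mul_of_nonneg_left ?_ (by positivity)
        have : (0 : ℝ) ≤ 2 ^ d * ((cnt (fun x y => ¬ G.Adj x y) A' B' : ℕ) : ℝ) := by positivity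
        linarith
      have h10 : (1 / 2 : ℝ) ^ (t0 * (2 * d + 1)) ≤ a ^ (2 * d + 1) := by
        rw [pow_mul]
        exact pow_le_pow_left₀ (by positivity) ha _
      have h11 : (1 / 2 : ℝ) ^ (t0 * (2 * d + 1)) * ((A.card : ℝ) * B.card) ≤
          2 ^ (d + 1) * (2 ^ (c * (2 * d + 1)) * ((A'.card : ℝ) * B'.card)) :=
        (mul_le_mul_of_nonneg_right h10 (by positivity)).trans h9
      have h12 : (A.card : ℝ) * B.card ≤ 2 ^ (t0 * (2 * d + 1)) *
          (2 ^ (d + 1) * (2 ^ (c * (2 * d + 1)) * ((A'.card : ℝ) * B'.card))) := by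
        have h13 : (2 : ℝ) ^ (t0 * (2 * d + 1)) * (1 / 2) ^ (t0 * (2 * d + 1)) = 1 := by
          rw [← mul_pow]; norm_num
        calc (A.card : ℝ) * B.card = 2 ^ (t0 * (2 * d + 1)) *
              ((1 / 2 : ℝ) ^ (t0 * (2 * d + 1)) * ((A.card : ℝ) * B.card)) := by
              rw [← mul_assoc, h13, one_mul]
          _ ≤ _ := mul_le_mul_of_nonneg_left h11 (by positivity)
      refine h12.trans ?_
      have e : (2 : ℝ) ^ (t0 * (2 * d + 1)) *
          (2 ^ (d + 1) * (2 ^ (c * (2 * d + 1)) * ((A'.card : ℝ) * B'.card))) =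
          2 ^ ((t0 + c) * (2 * d + 1) + d + 1) * ((A'.card : ℝ) * B'.card) := by
        rw [show (t0 + c) * (2 * d + 1) + d + 1 =
          t0 * (2 * d + 1) + (d + 1) + c * (2 * d + 1) by ring, pow_add, pow_add]
        ring
      rw [e]
      refine mul_le_mul_of_nonneg_right ?_ (by positivity)
      refine pow_le_pow_right₀ (by norm_num) ?_
      rw [hD]
      have := Nat.mul_le_mul_right (2 * d + 1) htc
      omega
    exact_mod_cast h8
  · have h8 : (2 : ℝ) ^ d * ((cnt (fun x y => ¬ G.Adj x y) A' B' : ℕ) : ℝ) ≤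
        A'.card * B'.card := by linarith
    exact_mod_cast h8

end Pool.Agent.H522R5.CC
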