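import Pool.Agent.H522R5.CC.Defs

/-! Task T1 (helper399): counting small subsets. -/

namespace Pool.Agent.H522R5.CC

open Finset

theorem T1 : S_T1 := by
  intro V _ K d k E hd hKk hE
  set F := K.powerset.filter fun T => 2 ^ d * T.card ≤ 4 * K.card with hF
  have h2d : (0:ℝ) < 2 ^ d := by positivity
  obtain ⟨x, hx⟩ : ∃ x : ℝ, x = 4 / 2 ^ d := ⟨_, rfl⟩
  have hx0 : 0 < x := by rw [hx]; positivity
  have hd2 : (2:ℝ) ≤ d := by exact_mod_cast hd
  have hl : 0 ≤ Real.log 2 := Real.log_nonneg (by norm_num)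
  have hxe : x = Real.exp (-((d:ℝ) - 2) * Real.log 2) := by
    obtain ⟨m, rfl⟩ := Nat.exists_eq_add_of_le hd
    rw [hx, pow_add]
    push_cast
    rw [show -((2 + (m:ℝ)) - 2) * Real.log 2 = -(m * Real.log 2) by ring, Real.exp_neg,
      Real.exp_nat_mul, Real.exp_log (by norm_num)]
    field_simp
    norm_num
  have hsum : ∑ T ∈ K.powerset, x ^ T.card = (1 + x) ^ K.card := by
    have h := Finset.sum_pow_mul_eq_add_pow x 1 K
    simpa [add_comm] using h
  obtain ⟨τ, hτ⟩ : ∃ τ : ℝ, τ = 4 * K.card / 2 ^ d := ⟨_, rfl⟩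
  have hlow : (F.card : ℝ) * Real.exp (-((d:ℝ) - 2) * Real.log 2 * τ) ≤ (1 + x) ^ K.card := by
    rw [← hsum]
    calc (F.card : ℝ) * Real.exp (-((d:ℝ) - 2) * Real.log 2 * τ)
        = ∑ T ∈ F, Real.exp (-((d:ℝ) - 2) * Real.log 2 * τ) := by rw [sum_const, nsmul_eq_mul]
      _ ≤ ∑ T ∈ F, x ^ T.card := by
        apply sum_le_sum
        intro T hT
        rw [hF, mem_filter] at hT
        have hTt : (T.card : ℝ) ≤ τ := by
          rw [hτ, le_div_iff₀ h2d]
          have h2 : ((2 ^ d * T.card : ℕ) : ℝ) ≤ ((4 * K.card : ℕ) : ℝ) := by exact_mod_cast hT.2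
          push_cast at h2
          linarith
        rw [hxe, ← Real.exp_nat_mul]
        apply Real.exp_le_exp.mpr
        nlinarith [mul_nonneg (mul_nonneg (sub_nonneg.mpr hd2) hl) (sub_nonneg.mpr hTt)]
      _ ≤ ∑ T ∈ K.powerset, x ^ T.card :=
        sum_le_sum_of_subset_of_nonneg (filter_subset _ _) (fun _ _ _ => by positivity)
  have hup : (1 + x) ^ K.card ≤ Real.exp (x * K.card) := by
    calc (1 + x) ^ K.card ≤ (Real.exp x) ^ K.card :=
          pow_le_pow_left₀ (by positivity) (by linarith [Real.add_one_le_exp x]) _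
      _ = Real.exp (x * K.card) := by rw [← Real.exp_nat_mul, mul_comm]
  have hfin : (F.card : ℝ) ≤ Real.exp (x * K.card + ((d:ℝ) - 2) * Real.log 2 * τ) := by
    rw [Real.exp_add]
    have h := hlow.trans hup
    have h3 : Real.exp (-((d:ℝ) - 2) * Real.log 2 * τ)
        = (Real.exp (((d:ℝ) - 2) * Real.log 2 * τ))⁻¹ := by
      rw [← Real.exp_neg]; congr 1; ring
    rw [h3, ← div_eq_mul_inv, div_le_iff₀ (Real.exp_pos _)] at h
    exact h
  have hE' : x * K.card + ((d:ℝ) - 2) * Real.log 2 * τ ≤ E * Real.log 2 := by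
    have hlog : (1:ℝ)/2 ≤ Real.log 2 := by have := Real.log_two_gt_d9; linarith
    have hxk : 0 ≤ x * K.card := by positivity
    have h1 : x * K.card ≤ 2 * (x * K.card) * Real.log 2 := by nlinarith
    have h2 : 2 * (x * K.card) + ((d:ℝ) - 2) * τ = 4 * d * K.card / 2 ^ d := by
      rw [hx, hτ]; ring
    have h3 : 4 * d * K.card / 2 ^ d ≤ (E:ℝ) := by
      rw [div_le_iff₀ h2d]
      have h4 : 4 * d * K.card ≤ E * 2 ^ d := (Nat.mul_le_mul_left _ hKk).trans hE
      exact_mod_cast h4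
    have h5 : (2 * (x * K.card) + ((d:ℝ) - 2) * τ) * Real.log 2 ≤ E * Real.log 2 := by
      rw [h2]
      exact mul_le_mul_of_nonneg_right h3 hl
    linarith
  have hlast : (F.card : ℝ) ≤ 2 ^ E := by
    calc (F.card : ℝ) ≤ Real.exp (E * Real.log 2) := hfin.trans (Real.exp_le_exp.mpr hE')
      _ = 2 ^ E := by rw [Real.exp_nat_mul, Real.exp_log (by norm_num)]
  exact_mod_cast hlast

end Pool.Agent.H522R5.CC
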