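import Pool.Agent.H522R5.CC.Defs

/-!
T2: the trace argument of Erdos and Szemeredi.
-/

namespace Pool.Agent.H522R5.CC

open Finset

open scoped Classical in
theorem T2_cnt {V : Type} (r : V → V → Prop) (A B : Finset V) :
    cnt r A B = ∑ x ∈ A, (B.filter fun y => r x y).card := by
  unfold cnt
  simp only [Finset.card_filter, Finset.sum_product]

theorem T2 (hT1 : S_T1) : S_T2 := by
  classical
  intro V good A B d k E hd hE hcnt
  rcases B.eq_empty_or_nonempty with hB | hB
  · subst hB
    exact ⟨A, subset_rfl, by omega, fun K hK _ => ⟨K, subset_rfl, ∅, subset_rfl, by omega,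
      by simp, by simp⟩⟩
  have hBpos : 0 < B.card := hB.card_pos
  set bad : V → ℕ := fun x => (B.filter fun y => ¬ good x y).card with hbad
  set A' := A.filter (fun x => 2 ^ d * bad x ≤ 2 * B.card) with hA'
  have hA2 : A.card ≤ 2 * A'.card := by
    have h1 : (A.filter (fun x => ¬ (2 ^ d * bad x ≤ 2 * B.card))).card * (2 * B.card)
        ≤ A.card * B.card := by
      calc (A.filter (fun x => ¬ (2 ^ d * bad x ≤ 2 * B.card))).card * (2 * B.card)
          = ∑ x ∈ A.filter (fun x => ¬ (2 ^ d * bad x ≤ 2 * B.card)), (2 * B.card) := by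
            rw [Finset.sum_const, smul_eq_mul]
        _ ≤ ∑ x ∈ A.filter (fun x => ¬ (2 ^ d * bad x ≤ 2 * B.card)), 2 ^ d * bad x := by
            apply Finset.sum_le_sum
            intro x hx
            have := (Finset.mem_filter.1 hx).2
            omega
        _ ≤ ∑ x ∈ A, 2 ^ d * bad x :=
            Finset.sum_le_sum_of_subset (Finset.filter_subset _ _)
        _ = 2 ^ d * cnt (fun x y => ¬ good x y) A B := by
            rw [T2_cnt, Finset.mul_sum]
            refine Finset.sum_congr rfl (fun x _ => ?_)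
            simp only [hbad]
            congr!
        _ ≤ A.card * B.card := hcnt
    have h2 : A'.card + (A.filter (fun x => ¬ (2 ^ d * bad x ≤ 2 * B.card))).card = A.card :=
      Finset.card_filter_add_card_filter_not _
    have h3 : (A.filter (fun x => ¬ (2 ^ d * bad x ≤ 2 * B.card))).card * 2 ≤ A.card := by
      apply Nat.le_of_mul_le_mul_right _ hBpos
      linarith
    omega
  refine ⟨A', Finset.filter_subset _ _, hA2, fun K hK hKk => ?_⟩
  rcases K.eq_empty_or_nonempty with hK0 | hK0
  · subst hK0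
    refine ⟨∅, subset_rfl, B, subset_rfl, by simp, ?_, by simp⟩
    exact Nat.le_mul_of_pos_left _ (by positivity)
  have hKpos : 0 < K.card := hK0.card_pos
  set tr : V → Finset V := fun y => K.filter (fun x => ¬ good x y) with htr
  set B1 := B.filter (fun y => 2 ^ d * (tr y).card ≤ 4 * K.card) with hB1
  have hdc : ∑ y ∈ B, 2 ^ d * (tr y).card ≤ 2 * K.card * B.card := by
    have h1 : ∑ y ∈ B, (tr y).card = ∑ x ∈ K, bad x := by
      simp only [htr, hbad, Finset.card_filter]
      rw [Finset.sum_comm]
    calc ∑ y ∈ B, 2 ^ d * (tr y).card = 2 ^ d * ∑ y ∈ B, (tr y).card := by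
          rw [Finset.mul_sum]
      _ = ∑ x ∈ K, 2 ^ d * bad x := by rw [h1, Finset.mul_sum]
      _ ≤ ∑ x ∈ K, 2 * B.card := by
          apply Finset.sum_le_sum
          intro x hx
          exact (Finset.mem_filter.1 (hK hx)).2
      _ = 2 * K.card * B.card := by
          rw [Finset.sum_const, smul_eq_mul]; ring
  have hB2 : B.card ≤ 2 * B1.card := by
    have h1 : (B.filter (fun y => ¬ (2 ^ d * (tr y).card ≤ 4 * K.card))).card * (4 * K.card)
        ≤ 2 * K.card * B.card := by
      calc (B.filter (fun y => ¬ (2 ^ d * (tr y).card ≤ 4 * K.card))).card * (4 * K.card)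
          = ∑ y ∈ B.filter (fun y => ¬ (2 ^ d * (tr y).card ≤ 4 * K.card)), (4 * K.card) := by
            rw [Finset.sum_const, smul_eq_mul]
        _ ≤ ∑ y ∈ B.filter (fun y => ¬ (2 ^ d * (tr y).card ≤ 4 * K.card)),
              2 ^ d * (tr y).card := by
            apply Finset.sum_le_sum
            intro y hy
            have := (Finset.mem_filter.1 hy).2
            omega
        _ ≤ ∑ y ∈ B, 2 ^ d * (tr y).card :=
            Finset.sum_le_sum_of_subset (Finset.filter_subset _ _)
        _ ≤ 2 * K.card * B.card := hdc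
    have h2 : B1.card + (B.filter (fun y => ¬ (2 ^ d * (tr y).card ≤ 4 * K.card))).card = B.card :=
      Finset.card_filter_add_card_filter_not _
    have h3 : (B.filter (fun y => ¬ (2 ^ d * (tr y).card ≤ 4 * K.card))).card * 2 ≤ B.card := by
      apply Nat.le_of_mul_le_mul_right _ hKpos
      linarith
    omega
  set F := K.powerset.filter fun T => 2 ^ d * T.card ≤ 4 * K.card with hF
  have hFc : F.card ≤ 2 ^ E := hT1 V K d k E (by omega) hKk hE
  have hmaps : ∀ y ∈ B1, tr y ∈ F := by
    intro y hy
    rw [hF, Finset.mem_filter, Finset.mem_powerset]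
    exact ⟨Finset.filter_subset _ _, (Finset.mem_filter.1 hy).2⟩
  have hFne : F.Nonempty := ⟨∅, by rw [hF, Finset.mem_filter]; simp⟩
  obtain ⟨T, hT, hTc⟩ : ∃ T ∈ F, B1.card ≤ 2 ^ E * (B1.filter fun y => tr y = T).card := by
    by_contra hcon
    push Not at hcon
    have h1 : ∑ T ∈ F, 2 ^ E * (B1.filter fun y => tr y = T).card < ∑ T ∈ F, B1.card :=
      Finset.sum_lt_sum_of_nonempty hFne hcon
    rw [← Finset.mul_sum, ← Finset.card_eq_sum_card_fiberwise hmaps, Finset.sum_const,
      smul_eq_mul] at h1
    have h2 : F.card * B1.card ≤ 2 ^ E * B1.card := Nat.mul_le_mul_right _ hFc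
    omega
  have hTK := Finset.mem_filter.1 hT
  rw [Finset.mem_powerset] at hTK
  refine ⟨K \ T, Finset.sdiff_subset, B1.filter fun y => tr y = T, ?_, ?_, ?_, ?_⟩
  · exact (Finset.filter_subset _ _).trans (Finset.filter_subset _ _)
  · have h1 := Finset.card_sdiff_add_card_eq_card hTK.1
    have h2 : 2 ^ d * K.card = 2 ^ d * (K \ T).card + 2 ^ d * T.card := by
      rw [← Nat.mul_add, h1]
    have h3 := hTK.2
    omega
  · calc B.card ≤ 2 * B1.card := hB2
      _ ≤ 2 * (2 ^ E * (B1.filter fun y => tr y = T).card) := Nat.mul_le_mul_left _ hTc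
      _ = 2 ^ (E + 1) * (B1.filter fun y => tr y = T).card := by ring
  · intro x hx y hy
    rw [Finset.mem_sdiff] at hx
    have h1 := (Finset.mem_filter.1 hy).2
    by_contra hg
    apply hx.2
    rw [← h1, htr, Finset.mem_filter]
    exact ⟨hx.1, hg⟩

end Pool.Agent.H522R5.CC
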