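import Pool.Agent.H522R5.CC.Defs

/-!
U1: every graph on at most `2^m` vertices has SBP cost at most `m + 1`.
-/

namespace Pool.Agent.H522R5.CC

open Finset

namespace U1Aux

/-- the owner of `x` sends the bits of `x` (high bits first), the owner of `y` answers -/
noncomputable def build {n : ℕ} (G : SimpleGraph (Fin n)) : ℕ → ℕ → Prot (Fin n)
  | 0, x0 => by
      classical
      exact Prot.bob (fun y => decide (∃ h : x0 < n, G.Adj ⟨x0, h⟩ y))
        (Prot.leaf false) (Prot.leaf true)
  | i + 1, x0 => Prot.alice (fun x => x.val.testBit i) (build G i x0) (build G i (x0 + 2 ^ i))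

theorem build_bits {n : ℕ} (G : SimpleGraph (Fin n)) :
    ∀ (i x0 : ℕ), (build G i x0).bits = i + 1 := by
  intro i
  induction i with
  | zero =>
    intro x0
    simp [build, Prot.bits]
  | succ i ih =>
    intro x0
    simp [build, Prot.bits, ih]

theorem build_run {n : ℕ} (G : SimpleGraph (Fin n)) (x y : Fin n) :
    ∀ (i x0 : ℕ), x.val = x0 + x.val % 2 ^ i →
      ((build G i x0).run x y = true ↔ G.Adj x y) := by
  intro i
  induction i with
  | zero =>
    intro x0 h
    have hx : x.val = x0 := by simpa [Nat.mod_one] using h
    subst hx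
    have h1 : (∃ h : x.val < n, G.Adj ⟨x.val, h⟩ y) ↔ G.Adj x y :=
      ⟨fun ⟨_, h⟩ => h, fun h => ⟨x.isLt, h⟩⟩
    by_cases hA : G.Adj x y
    · simp [build, Prot.run, hA]
    · simp [build, Prot.run, hA]
  | succ i ih =>
    intro x0 h
    have hmod : x.val % 2 ^ (i + 1) = x.val % 2 ^ i + 2 ^ i * (x.val.testBit i).toNat := by
      rw [Nat.toNat_testBit]
      exact Nat.mod_pow_succ
    by_cases hb : x.val.testBit i = true
    · have h2 : x.val = (x0 + 2 ^ i) + x.val % 2 ^ i := by
        rw [hmod, hb] at h
        simp only [Bool.toNat_true, mul_one] at h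
        omega
      have h3 : (build G (i + 1) x0).run x y = (build G i (x0 + 2 ^ i)).run x y := by
        simp [build, Prot.run, hb]
      rw [h3]
      exact ih _ h2
    · have hb' : x.val.testBit i = false := by simpa using hb
      have h2 : x.val = x0 + x.val % 2 ^ i := by
        rw [hmod, hb'] at h
        simp only [Bool.toNat_false, mul_zero, add_zero] at h
        exact h
      have h3 : (build G (i + 1) x0).run x y = (build G i x0).run x y := by
        simp [build, Prot.run, hb']
      rw [h3]
      exact ih _ h2

end U1Aux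

open U1Aux

theorem U1 : S_U1 := by
  intro n m G hn
  refine ⟨0, m + 1, Unit, inferInstance, fun _ => 1, fun _ => build G m 0, 1, by omega, ?_, ?_,
    ?_, ?_, ?_⟩
  · intro _; norm_num
  · simp
  · intro _
    exact (build_bits G m 0).le
  · simp
  · intro x y _
    have hx : x.val = 0 + x.val % 2 ^ m := by
      rw [Nat.mod_eq_of_lt (lt_of_lt_of_le x.isLt hn), zero_add]
    have hr := build_run G x y m 0 hx
    constructor
    · intro hA
      have : (build G m 0).run x y = true := hr.2 hA
      simp [acc, this]
    · intro hA
      have : ¬ (build G m 0).run x y = true := fun h => hA (hr.1 h)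
      simp [acc, this]

end Pool.Agent.H522R5.CC
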