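import Pool.Agent.H522R5.CC.Defs

/-!
Upper bounds for the SBP cost: nondeterministic covers (U2) and bounded error protocols (U3)
(helper765).
-/

set_option autoImplicit false

namespace Pool.Agent.H522R5.CC

open Finset

theorem U2 : S_U2 := by
  classical
  intro n b G A B h1 h2
  refine ⟨b, 2, Fin (2 ^ b), inferInstance, fun _ => (1 / 2 : ℝ) ^ b,
    fun i => Prot.alice (fun x => decide (x ∈ A i)) (Prot.leaf false)
      (Prot.bob (fun y => decide (y ∈ B i)) (Prot.leaf false) (Prot.leaf true)),
    (1 / 2 : ℝ) ^ b, le_rfl, fun _ => by positivity, ?_, fun _ => le_of_eq rfl, le_rfl, ?_⟩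
  · rw [Finset.sum_const, Finset.card_univ, Fintype.card_fin, nsmul_eq_mul]
    push_cast
    rw [← mul_pow]
    norm_num
  · have hrun : ∀ (i : Fin (2 ^ b)) (x y : Fin n),
        (Prot.alice (fun x => decide (x ∈ A i)) (Prot.leaf false)
          (Prot.bob (fun y => decide (y ∈ B i)) (Prot.leaf false) (Prot.leaf true))).run x y = true ↔
        (x ∈ A i ∧ y ∈ B i) := by
      intro i x y
      simp only [Prot.run, decide_eq_true_eq]
      by_cases hx : x ∈ A i
      · by_cases hy : y ∈ B i
        · simp [hx, hy]
        · simp [hx, hy]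
      · simp [hx]
    intro x y hxy
    unfold acc
    refine ⟨fun hadj => ?_, fun hadj => ?_⟩
    · obtain ⟨i, hi⟩ := h2 x y hxy hadj
      have h3 : (1 / 2 : ℝ) ^ b = (1 / 2 : ℝ) ^ b *
          (if (Prot.alice (fun x => decide (x ∈ A i)) (Prot.leaf false)
          (Prot.bob (fun y => decide (y ∈ B i)) (Prot.leaf false) (Prot.leaf true))).run x y = true
          then 1 else 0) := by
        rw [if_pos ((hrun i x y).2 hi), mul_one]
      refine h3.le.trans ?_
      refine Finset.single_le_sum (f := fun i => (1 / 2 : ℝ) ^ b *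
          (if (Prot.alice (fun x => decide (x ∈ A i)) (Prot.leaf false)
          (Prot.bob (fun y => decide (y ∈ B i)) (Prot.leaf false) (Prot.leaf true))).run x y = true
          then 1 else 0)) ?_ (Finset.mem_univ i)
      intro j _
      refine mul_nonneg (by positivity) ?_
      split_ifs <;> norm_num
    · have h3 : ∀ i : Fin (2 ^ b), (1 / 2 : ℝ) ^ b *
          (if (Prot.alice (fun x => decide (x ∈ A i)) (Prot.leaf false)
          (Prot.bob (fun y => decide (y ∈ B i)) (Prot.leaf false) (Prot.leaf true))).run x y = true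
          then 1 else 0) = 0 := by
        intro i
        rw [if_neg, mul_zero]
        rw [hrun]
        rintro ⟨hx, hy⟩
        exact hadj (h1 i x hx y hy hxy)
      rw [Finset.sum_eq_zero (fun i _ => h3 i)]
      positivity

theorem U3 : S_U3 := by
  intro n c G Ω _ p P hp hs hb h
  refine ⟨1, c, Ω, inferInstance, p, P, 2 / 3, by omega, hp, hs, hb, by norm_num, ?_⟩
  intro x y hxy
  obtain ⟨h1, h2⟩ := h x y hxy
  exact ⟨h1, fun hn => (h2 hn).trans (by norm_num)⟩

end Pool.Agent.H522R5.CC
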